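import Pool.Agent.Helper36.CV.StmtsO

/-!
# O2: the separable Hamiltonian on the square lattice is a bounded self-adjoint operator
-/

set_option autoImplicit false

namespace Pool.Agent.Helper36.CV

open Filter Topology Pointwise

noncomputable section

theorem o2_mem_comp (σ : Equiv.Perm (ℤ × ℤ)) (ψ : L22) :
    Memℓp (fun p : ℤ × ℤ => ψ (σ p)) 2 := by
  have h2 : 0 < (2 : ENNReal).toReal := by norm_num
  have h := (memℓp_gen_iff h2).1 (lp.memℓp ψ)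
  exact (memℓp_gen_iff h2).2 (h.comp_injective σ.injective)

/-- composition with a permutation of the lattice -/
def o2_sh (σ : Equiv.Perm (ℤ × ℤ)) : L22 →ₗ[ℂ] L22 where
  toFun ψ := ⟨fun p => ψ (σ p), o2_mem_comp σ ψ⟩
  map_add' ψ φ := by
    apply lp.ext
    funext p
    rfl
  map_smul' c ψ := by
    apply lp.ext
    funext p
    rfl

theorem o2_sh_apply (σ : Equiv.Perm (ℤ × ℤ)) (ψ : L22) (p : ℤ × ℤ) : o2_sh σ ψ p = ψ (σ p) := rfl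

theorem o2_mem_mul (V : ℤ × ℤ → ℝ) (C : ℝ) (hV : ∀ p, |V p| ≤ C) (ψ : L22) :
    Memℓp (fun p : ℤ × ℤ => ((V p : ℝ) : ℂ) * ψ p) 2 := by
  have h1 : Memℓp ((C : ℂ) • (fun p : ℤ × ℤ => ψ p)) 2 := (lp.memℓp ψ).const_smul (C : ℂ)
  refine h1.mono' ?_
  intro p
  rw [Pi.smul_apply, smul_eq_mul, norm_mul, norm_mul]
  refine mul_le_mul_of_nonneg_right ?_ (norm_nonneg _)
  rw [Complex.norm_real, Complex.norm_real, Real.norm_eq_abs, Real.norm_eq_abs]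
  exact (hV p).trans (le_abs_self C)

/-- multiplication by a bounded real function -/
def o2_mul (V : ℤ × ℤ → ℝ) (C : ℝ) (hV : ∀ p, |V p| ≤ C) : L22 →ₗ[ℂ] L22 where
  toFun ψ := ⟨fun p => ((V p : ℝ) : ℂ) * ψ p, o2_mem_mul V C hV ψ⟩
  map_add' ψ φ := by
    apply lp.ext
    funext p
    show ((V p : ℝ) : ℂ) * (ψ p + φ p) = ((V p : ℝ) : ℂ) * ψ p + ((V p : ℝ) : ℂ) * φ p
    ring
  map_smul' c ψ := by
    apply lp.ext
    funext p
    show ((V p : ℝ) : ℂ) * (c * ψ p) = c * (((V p : ℝ) : ℂ) * ψ p)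
    ring

theorem o2_mul_apply (V : ℤ × ℤ → ℝ) (C : ℝ) (hV : ∀ p, |V p| ≤ C) (ψ : L22) (p : ℤ × ℤ) :
    o2_mul V C hV ψ p = ((V p : ℝ) : ℂ) * ψ p := rfl

theorem o2_inner_sh (σ τ : Equiv.Perm (ℤ × ℤ)) (h : ∀ p, τ (σ p) = p) (ψ φ : L22) :
    inner ℂ (o2_sh σ ψ) φ = inner ℂ ψ (o2_sh τ φ) := by
  rw [lp.inner_eq_tsum, lp.inner_eq_tsum]
  rw [← Equiv.tsum_eq σ (fun p => inner ℂ (ψ p) (o2_sh τ φ p))]
  refine tsum_congr ?_
  intro p
  rw [o2_sh_apply, o2_sh_apply, h]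

theorem o2_sym_sh (σ τ : Equiv.Perm (ℤ × ℤ)) (h : ∀ p, τ (σ p) = p) (h' : ∀ p, σ (τ p) = p) :
    (o2_sh σ + o2_sh τ).IsSymmetric := by
  intro ψ φ
  rw [LinearMap.add_apply, LinearMap.add_apply, inner_add_left, inner_add_right,
    o2_inner_sh σ τ h, o2_inner_sh τ σ h', add_comm]

theorem o2_sym_mul (V : ℤ × ℤ → ℝ) (C : ℝ) (hV : ∀ p, |V p| ≤ C) :
    (o2_mul V C hV).IsSymmetric := by
  intro ψ φ
  rw [lp.inner_eq_tsum, lp.inner_eq_tsum]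
  refine tsum_congr ?_
  intro p
  rw [o2_mul_apply, o2_mul_apply]
  simp only [RCLike.inner_apply, map_mul, Complex.conj_ofReal]
  ring

/-- the potential -/
def o2_pot (l1 l2 : ℝ) (p : ℤ × ℤ) : ℝ :=
  (Set.Ico (1 - (Real.sqrt 5 - 1) / 2) 1).indicator (fun _ => l1)
      (Int.fract ((p.1 : ℝ) * ((Real.sqrt 5 - 1) / 2)))
    + (Set.Ico (1 - (Real.sqrt 5 - 1) / 2) 1).indicator (fun _ => l2)
      (Int.fract ((p.2 : ℝ) * ((Real.sqrt 5 - 1) / 2)))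

theorem o2_ind (S : Set ℝ) (l x : ℝ) : |S.indicator (fun _ => l) x| ≤ |l| := by
  by_cases h : x ∈ S
  · rw [Set.indicator_of_mem h]
  · rw [Set.indicator_of_notMem h, abs_zero]
    exact abs_nonneg l

theorem o2_pot_le (l1 l2 : ℝ) (p : ℤ × ℤ) : |o2_pot l1 l2 p| ≤ |l1| + |l2| :=
  (abs_add_le _ _).trans (add_le_add (o2_ind _ _ _) (o2_ind _ _ _))

/-- translations of the lattice -/
def o2_tr (v : ℤ × ℤ) : Equiv.Perm (ℤ × ℤ) where
  toFun p := p + v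
  invFun p := p - v
  left_inv p := add_sub_cancel_right p v
  right_inv p := sub_add_cancel p v

theorem o2_tr_apply (v p : ℤ × ℤ) : o2_tr v p = p + v := rfl

theorem o2_tr_neg (v p : ℤ × ℤ) : o2_tr (-v) (o2_tr v p) = p := by
  rw [o2_tr_apply, o2_tr_apply, add_neg_cancel_right]

theorem o2_tr_neg' (v p : ℤ × ℤ) : o2_tr v (o2_tr (-v) p) = p := by
  rw [o2_tr_apply, o2_tr_apply, neg_add_cancel_right]

/-- O2 -/
theorem st_O2 : ST_O2 := by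
  intro l1 l2
  have hs : (((o2_sh (o2_tr (1, 0)) + o2_sh (o2_tr (-(1, 0))))
      + (o2_sh (o2_tr (0, 1)) + o2_sh (o2_tr (-(0, 1)))))
      + o2_mul (o2_pot l1 l2) (|l1| + |l2|) (o2_pot_le l1 l2)).IsSymmetric :=
    ((o2_sym_sh _ _ (o2_tr_neg _) (o2_tr_neg' _)).add
      (o2_sym_sh _ _ (o2_tr_neg _) (o2_tr_neg' _))).add (o2_sym_mul _ _ _)
  refine ⟨(hs.toSelfAdjoint : L22 →L[ℂ] L22), hs.toSelfAdjoint.2, ?_⟩
  intro ψ p
  have h1 : (hs.toSelfAdjoint : L22 →L[ℂ] L22) ψ p =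
      ((ψ (p + (1, 0)) + ψ (p + -(1, 0))) + (ψ (p + (0, 1)) + ψ (p + -(0, 1))))
        + ((o2_pot l1 l2 p : ℝ) : ℂ) * ψ p := rfl
  have e1 : p + (1, 0) = (p.1 + 1, p.2) := by
    ext
    · rfl
    · exact add_zero _
  have e2 : p + -(1, 0) = (p.1 - 1, p.2) := by
    ext
    · rfl
    · exact add_zero _
  have e3 : p + (0, 1) = (p.1, p.2 + 1) := by
    ext
    · exact add_zero _
    · rfl
  have e4 : p + -(0, 1) = (p.1, p.2 - 1) := by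
    ext
    · exact add_zero _
    · rfl
  rw [h1, e1, e2, e3, e4]
  show _ = ψ (p.1 + 1, p.2) + ψ (p.1 - 1, p.2) + ψ (p.1, p.2 + 1) + ψ (p.1, p.2 - 1)
    + ((o2_pot l1 l2 p : ℝ) : ℂ) * ψ p
  ring

end

end Pool.Agent.Helper36.CV
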